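import Pool.Agent.Work.MP_2ceb02_lc.Sym.Secure

/-!
# Programs all of whose wires are exclusive ors of local functions
-/

namespace Pool.Agent.Work.MP_2ceb02_lc

open Finset

/-- A function of some bits, each of which is an exclusive or of wires. -/
structure Tm (ι : Type) where
  ix : Finset ι
  form : ix → Finset ℕ
  fn : (ix → ZMod 2) → ZMod 2

/-- A program with `n` input wires, `G` inner wires and `m` output wires; every inner or output
wire is the exclusive or of `M` functions of some bits, each of which is the exclusive or of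
earlier non-output wires. -/
structure JuntaProg (n m G M : ℕ) (ι : Type) where
  tm : Fin (G + m) → Fin M → Tm ι
  form_lt : ∀ v a i, ∀ w ∈ (tm v a).form i, w < n + v ∧ w < n + G

namespace JuntaProg

variable {n m G M : ℕ} {ι : Type} (L : JuntaProg n m G M ι)

/-- The arguments of a term. -/
def fs (v : Fin (G + m)) (a : Fin M) (y : ℕ → ZMod 2) : (L.tm v a).ix → ZMod 2 :=
  fun i => ∑ w ∈ (L.tm v a).form i, y w

/-- The exclusive or of the terms. -/
def tot (v : Fin (G + m)) (y : ℕ → ZMod 2) : ZMod 2 := ∑ a, (L.tm v a).fn (L.fs v a y)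

theorem fs_congr {v : Fin (G + m)} {a : Fin M} {y y' : ℕ → ZMod 2}
    (h : ∀ w < n + (v : ℕ), w < n + G → y w = y' w) : L.fs v a y = L.fs v a y' := by
  funext i
  exact Finset.sum_congr rfl fun w hw => h w (L.form_lt v a i w hw).1 (L.form_lt v a i w hw).2

theorem tot_congr {v : Fin (G + m)} {y y' : ℕ → ZMod 2}
    (h : ∀ w < n + (v : ℕ), w < n + G → y w = y' w) : L.tot v y = L.tot v y' :=
  Finset.sum_congr rfl fun a _ => by rw [L.fs_congr h]

theorem fs_add (v : Fin (G + m)) (a : Fin M) (y y' : ℕ → ZMod 2) :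
    L.fs v a (fun w => y w + y' w) = fun i => L.fs v a y i + L.fs v a y' i := by
  funext i
  exact Finset.sum_add_distrib

/-- The value of wire `t`. -/
def W (x : Fin n → ZMod 2) (t : ℕ) : ZMod 2 :=
  if h : t < n then x ⟨t, h⟩
  else if h' : t - n < G + m then
    L.tot ⟨t - n, h'⟩ (fun w => if w < t then W x w else 0)
  else 0
termination_by t

theorem W_input (x : Fin n → ZMod 2) (j : Fin n) : L.W x j = x j := by
  rw [W]; simp

theorem W_eq (x : Fin n → ZMod 2) (v : Fin (G + m)) : L.W x (n + v) = L.tot v (L.W x) := by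
  rw [W]
  have h1 : ¬ (n + (v : ℕ) < n) := by omega
  have h2 : n + (v : ℕ) - n = v := by omega
  rw [dif_neg h1]
  have h3 : n + (v : ℕ) - n < G + m := by rw [h2]; exact v.2
  rw [dif_pos h3]
  have h4 : (⟨n + (v : ℕ) - n, h3⟩ : Fin (G + m)) = v := Fin.ext h2
  rw [h4]
  apply L.tot_congr
  intro w hw _
  rw [if_pos hw]

/-- The randomness of the dealer. -/
@[ext] structure Rnd (N : ℕ) where
  r : Fin (n + G) → ZMod 2
  K : (v : Fin (G + m)) → (a : Fin M) → Fin N → ((L.tm v a).ix → ZMod 2) → ZMod 2
  O : Fin (G + m) → Fin N → ZMod 2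
  hK : ∀ v a y, ∑ p, K v a p y = (L.tm v a).fn (fun i => y i + L.fs v a (SumCircuit.RR n G r) i)
  hO : ∀ v, ∑ p, O v p = SumCircuit.RR n G r (n + v)

noncomputable instance instFintypeRnd (N : ℕ) : Fintype (L.Rnd N) := by
  have : Finite (L.Rnd N) :=
    Finite.of_injective (fun ω : L.Rnd N => (ω.r, ω.K, ω.O)) (by
      intro ω ω' h
      simp only [Prod.mk.injEq] at h
      exact Rnd.ext h.1 h.2.1 h.2.2)
  exact Fintype.ofFinite _

theorem nonempty_rnd {N : ℕ} (hN : 0 < N) : Nonempty (L.Rnd N) := by
  classical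
  exact ⟨{ r := 0
           K := fun v a p y => if p = ⟨0, hN⟩ then
             (L.tm v a).fn (fun i => y i + L.fs v a (SumCircuit.RR n G 0) i) else 0
           O := fun v p => if p = ⟨0, hN⟩ then SumCircuit.RR n G 0 (n + v) else 0
           hK := by intro v a y; simp
           hO := by intro v; simp }⟩

variable {N : ℕ} (own : Fin n → Fin N)

/-- The masked values read from the history. -/
def Z (H : ℕ → Fin N → ZMod 2) (w : ℕ) : ZMod 2 := ∑ p, H w p

/-- The bit broadcast for a wire. -/
def share (k : (v : Fin (G + m)) → (a : Fin M) → ((L.tm v a).ix → ZMod 2) → ZMod 2) (o : Fin (G + m) → ZMod 2)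
    (H : ℕ → Fin N → ZMod 2) (v : Fin (G + m)) : ZMod 2 :=
  ∑ a, k v a (L.fs v a (Z H)) + o v

theorem share_congr (k : (v : Fin (G + m)) → (a : Fin M) → ((L.tm v a).ix → ZMod 2) → ZMod 2)
    (o : Fin (G + m) → ZMod 2) (H H' : ℕ → Fin N → ZMod 2) (v : Fin (G + m))
    (h : ∀ w < n + (v : ℕ), w < n + G → ∀ p, H w p = H' w p) :
    L.share k o H v = L.share k o H' v := by
  unfold share
  congr 1
  refine Finset.sum_congr rfl fun a _ => ?_
  rw [L.fs_congr (y := Z H) (y' := Z H')]
  intro w hw hw'
  exact Finset.sum_congr rfl fun p _ => h w hw hw' p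

/-- The protocol. -/
noncomputable def prot (hN : 0 < N) : Protocol N n m own where
  Rand := L.Rnd N
  fin := L.instFintypeRnd N
  ne := L.nonempty_rnd hN
  Store := fun p => ({j : Fin n // own j = p} → ZMod 2) ×
    ((v : Fin (G + m)) → (a : Fin M) → ((L.tm v a).ix → ZMod 2) → ZMod 2) ×
    (Fin (G + m) → ZMod 2)
  deal := fun ω p => (fun j => ω.r ⟨j.1, by omega⟩, fun v a => ω.K v a p, fun v => ω.O v p)
  rounds := n + (G + m)
  speakers := fun t => if h : t < n then {own ⟨t, h⟩} else univ
  msg := fun t p xp st hist =>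
    if h : ∃ h : t < n, own ⟨t, h⟩ = p then
      xp ⟨⟨t, h.1⟩, h.2⟩ + st.1 ⟨⟨t, h.1⟩, h.2⟩
    else if h' : n ≤ t ∧ t - n < G + m then
      L.share st.2.1 st.2.2 (SumCircuit.hx t hist) ⟨t - n, h'.2⟩
    else 0
  output := fun _ _ _ tr k => ∑ q, tr ⟨n + (G + k), by omega⟩ q

section

variable (hN : 0 < N) (x : Fin n → ZMod 2) (ω : L.Rnd N)

theorem bit_input (j : Fin n) (p : Fin N) :
    (L.prot own hN).bit x ω j p = if own j = p then x j + SumCircuit.RR n G ω.r j else 0 := by
  rw [Protocol.bit]
  have hs : (L.prot own hN).speakers j = {own j} := by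
    simp [prot]
  rw [hs]
  by_cases h : own j = p
  · subst h
    have hj : (j : ℕ) < n + G := by omega
    simp [prot, SumCircuit.RR, hj]
  · have : p ∉ ({own j} : Finset (Fin N)) := by
      simp only [mem_singleton]
      exact fun h' => h h'.symm
    rw [if_neg this, if_neg h]

theorem bit_wire (v : Fin (G + m)) (p : Fin N) :
    (L.prot own hN).bit x ω (n + v) p =
      L.share (fun v a => ω.K v a p) (fun v => ω.O v p) ((L.prot own hN).bit x ω) v := by
  rw [Protocol.bit]
  have h1 : ¬ (n + (v : ℕ) < n) := by omega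
  have hs : (L.prot own hN).speakers (n + v) = univ := by
    simp [prot]
  rw [hs, if_pos (mem_univ p)]
  have h2 : n + (v : ℕ) - n = v := by omega
  have h3 : n ≤ n + (v : ℕ) ∧ n + (v : ℕ) - n < G + m := ⟨by omega, by rw [h2]; exact v.2⟩
  have h4 : ¬ ∃ h : n + (v : ℕ) < n, own ⟨n + (v : ℕ), h⟩ = p := fun h => h1 h.1
  simp only [prot, dif_neg h4, dif_pos h3]
  have key : ∀ v' : Fin (G + m), v' = v →
      L.share (fun v a => ω.K v a p) (fun v => ω.O v p)
        (SumCircuit.hx (n + (v : ℕ)) (fun u => (L.prot own hN).bit x ω u)) v' =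
      L.share (fun v a => ω.K v a p) (fun v => ω.O v p) ((L.prot own hN).bit x ω) v := by
    intro v' hv; subst hv
    rw [SumCircuit.hx_eq]
    apply L.share_congr
    intro w hw _ q
    simp only [SumCircuit.trunc]
    rw [if_pos hw]
  exact key ⟨_, h3.2⟩ (Fin.ext h2)

theorem term_eq (r : Fin (n + G) → ZMod 2) (v : Fin (G + m)) (a : Fin M) (z : ℕ → ZMod 2)
    (h : ∀ w < n + (v : ℕ), w < n + G → z w = L.W x w + SumCircuit.RR n G r w) :
    (L.tm v a).fn (fun i => L.fs v a z i + L.fs v a (SumCircuit.RR n G r) i) =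
      (L.tm v a).fn (L.fs v a (L.W x)) := by
  congr 1
  rw [L.fs_congr h, L.fs_add]
  funext i
  rw [add_assoc, SumCircuit.two_self, add_zero]

theorem sum_bit (t : ℕ) (ht : t < n + (G + m)) :
    ∑ q, (L.prot own hN).bit x ω t q = L.W x t + SumCircuit.RR n G ω.r t := by
  induction t using Nat.strong_induction_on with
  | _ t ih =>
    by_cases h : t < n
    · have := fun q => L.bit_input own hN x ω ⟨t, h⟩ q
      simp only at this
      rw [Finset.sum_congr rfl (fun q _ => this q), Finset.sum_ite_eq, if_pos (mem_univ _)]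
      rw [← L.W_input x ⟨t, h⟩]
    · obtain ⟨v, rfl⟩ : ∃ v : Fin (G + m), t = n + v :=
        ⟨⟨t - n, by omega⟩, by simp only; omega⟩
      rw [Finset.sum_congr rfl (fun q _ => L.bit_wire own hN x ω v q)]
      simp only [share]
      rw [Finset.sum_add_distrib, Finset.sum_comm, ω.hO, L.W_eq]
      congr 1
      unfold tot
      refine Finset.sum_congr rfl fun a _ => ?_
      rw [ω.hK]
      apply L.term_eq x ω.r v a
      intro w hw _
      exact ih w hw (by omega)

theorem correct : (L.prot own hN).Correct (fun x k => L.W x (n + (G + k))) := by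
  intro x ω p
  funext k
  have h := L.sum_bit own hN x ω (n + (G + k)) (by omega)
  have hR : SumCircuit.RR n G ω.r (n + (G + (k : ℕ))) = 0 := by
    simp only [SumCircuit.RR]
    rw [dif_neg (by omega)]
  rw [hR, add_zero] at h
  exact h

end

/-- The change of the masks. -/
def sr (x x' : Fin n → ZMod 2) (r : Fin (n + G) → ZMod 2) : Fin (n + G) → ZMod 2 :=
  fun i => r i + (L.W x i + L.W x' i)

/-- The values to be shared. -/
def TK (r : Fin (n + G) → ZMod 2) (v : Fin (G + m)) (a : Fin M) (y : (L.tm v a).ix → ZMod 2) :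
    ZMod 2 := (L.tm v a).fn (fun i => y i + L.fs v a (SumCircuit.RR n G r) i)

/-- The change of the randomness of the dealer. -/
def shift (x x' : Fin n → ZMod 2) (h : Fin N) (ω : L.Rnd N) : L.Rnd N where
  r := L.sr x x' ω.r
  K := fun v a p y => upd h (fun p => ω.K v a p y)
    (L.TK (L.sr x x' ω.r) v a y - L.TK ω.r v a y) p
  O := fun v => upd h (ω.O v) (SumCircuit.RR n G (L.sr x x' ω.r) (n + v) -
    SumCircuit.RR n G ω.r (n + v))
  hK := by
    intro v a y
    rw [sum_upd, ω.hK]
    unfold TK
    abel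
  hO := by
    intro v
    rw [sum_upd, ω.hO]
    abel

theorem sr_sr (x x' : Fin n → ZMod 2) (r : Fin (n + G) → ZMod 2) :
    L.sr x' x (L.sr x x' r) = r := by
  funext i
  simp only [sr]
  linear_combination SumCircuit.two_self (L.W x i) + SumCircuit.two_self (L.W x' i)

theorem shift_shift (x x' : Fin n → ZMod 2) (h : Fin N) (ω : L.Rnd N) :
    L.shift x' x h (L.shift x x' h ω) = ω := by
  apply Rnd.ext
  · exact L.sr_sr x x' ω.r
  · funext v a p y
    show upd h (upd h (fun p => ω.K v a p y) (L.TK (L.sr x x' ω.r) v a y - L.TK ω.r v a y))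
      (L.TK (L.sr x' x (L.sr x x' ω.r)) v a y - L.TK (L.sr x x' ω.r) v a y) p = _
    rw [L.sr_sr, upd_upd h _ _ _ (by abel)]
  · funext v
    show upd h (upd h (ω.O v) _) (SumCircuit.RR n G (L.sr x' x (L.sr x x' ω.r)) (n + v) - _) = _
    rw [L.sr_sr, upd_upd h _ _ _ (by simp only [shift]; abel)]

/-- `shift` as an equivalence. -/
def shiftEquiv (x x' : Fin n → ZMod 2) (h : Fin N) : L.Rnd N ≃ L.Rnd N where
  toFun := L.shift x x' h
  invFun := L.shift x' x h
  left_inv := L.shift_shift x x' h
  right_inv := L.shift_shift x' x h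

theorem RR_sr (x x' : Fin n → ZMod 2) (r : Fin (n + G) → ZMod 2) (w : ℕ) (hw : w < n + G) :
    SumCircuit.RR n G (L.sr x x' r) w = SumCircuit.RR n G r w + (L.W x w + L.W x' w) := by
  simp [SumCircuit.RR, sr, hw]

theorem W_RR_sr (x x' : Fin n → ZMod 2) (r : Fin (n + G) → ZMod 2) (w : ℕ)
    (ho : n + G ≤ w → L.W x w = L.W x' w) :
    L.W x' w + SumCircuit.RR n G (L.sr x x' r) w = L.W x w + SumCircuit.RR n G r w := by
  by_cases hw : w < n + G
  · rw [L.RR_sr x x' r w hw]
    linear_combination SumCircuit.two_self (L.W x' w)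
  · rw [ho (by omega)]
    simp [SumCircuit.RR, hw]

section

variable (hN : 0 < N)

theorem bit_shift (x x' : Fin n → ZMod 2) (h : Fin N) (ω : L.Rnd N)
    (ho : ∀ k : Fin m, L.W x (n + (G + k)) = L.W x' (n + (G + k)))
    (t : ℕ) (ht : t < n + (G + m)) (p : Fin N) :
    (L.prot own hN).bit x' (L.shift x x' h ω) t p = (L.prot own hN).bit x ω t p := by
  have ho' : ∀ t, t < n + (G + m) → n + G ≤ t → L.W x t = L.W x' t := by
    intro t ht h1
    have := ho ⟨t - (n + G), by omega⟩
    simp only at this
    have e : n + (G + (t - (n + G))) = t := by omega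
    rwa [e] at this
  induction t using Nat.strong_induction_on generalizing p with
  | _ t ih =>
    by_cases hn : t < n
    · have h1 := L.bit_input own hN x ω ⟨t, hn⟩ p
      have h2 := L.bit_input own hN x' (L.shift x x' h ω) ⟨t, hn⟩ p
      simp only at h1 h2
      rw [h1, h2]
      split_ifs with hp
      · have := L.W_RR_sr x x' ω.r t (ho' t ht)
        rw [← L.W_input x ⟨t, hn⟩, ← L.W_input x' ⟨t, hn⟩]
        exact this
      · rfl
    · obtain ⟨v, rfl⟩ : ∃ v : Fin (G + m), t = n + v :=
        ⟨⟨t - n, by omega⟩, by simp only; omega⟩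
      rw [L.bit_wire own hN x ω v p, L.bit_wire own hN x' (L.shift x x' h ω) v p,
        L.share_congr _ _ _ ((L.prot own hN).bit x ω) v
          (fun w hw hw' q => ih w hw (by omega) q)]
      by_cases hp : p = h
      · subst hp
        unfold share
        simp only [shift, upd_self]
        rw [Finset.sum_add_distrib, Finset.sum_sub_distrib]
        have hz : ∀ w < n + (v : ℕ), w < n + G → Z ((L.prot own hN).bit x ω) w =
            L.W x w + SumCircuit.RR n G ω.r w := fun w hw _ => L.sum_bit own hN x ω w (by omega)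
        have hz' : ∀ w < n + (v : ℕ), w < n + G → Z ((L.prot own hN).bit x ω) w =
            L.W x' w + SumCircuit.RR n G (L.sr x x' ω.r) w := by
          intro w hw hw'
          rw [L.W_RR_sr x x' ω.r w (fun h => by omega)]
          exact hz w hw hw'
        have t1 : ∑ a, L.TK ω.r v a (L.fs v a (Z ((L.prot own hN).bit x ω))) =
            L.W x (n + v) := by
          rw [L.W_eq]
          exact Finset.sum_congr rfl fun a _ => L.term_eq x ω.r v a _ hz
        have t2 : ∑ a, L.TK (L.sr x x' ω.r) v a (L.fs v a (Z ((L.prot own hN).bit x ω))) =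
            L.W x' (n + v) := by
          rw [L.W_eq]
          exact Finset.sum_congr rfl fun a _ => L.term_eq x' (L.sr x x' ω.r) v a _ hz'
        rw [t1, t2]
        have t3 := L.W_RR_sr x x' ω.r (n + v) (ho' _ ht)
        linear_combination t3
      · unfold share
        simp only [shift, upd_ne hp]

theorem secure : (L.prot own hN).Secure (fun x k => L.W x (n + (G + k))) := by
  apply Protocol.secure_of_equiv
  intro T h hh x x' hx ho
  refine ⟨L.shiftEquiv x x' h, fun ω => ?_⟩
  refine Prod.ext ?_ ?_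
  · funext p
    have hp : (p : Fin N) ≠ h := fun e => hh (e ▸ p.2)
    refine Prod.ext ?_ (Prod.ext ?_ ?_)
    · funext j
      show L.sr x x' ω.r ⟨j.1, by omega⟩ = ω.r ⟨j.1, by omega⟩
      simp only [sr]
      have hj : own j.1 ∈ T := by rw [j.2]; exact p.2
      rw [L.W_input, L.W_input, hx _ hj, SumCircuit.two_self, add_zero]
    · funext v a y
      show (L.shift x x' h ω).K v a p y = ω.K v a p y
      simp only [shift, upd_ne hp]
    · funext v
      show (L.shift x x' h ω).O v p = ω.O v p
      simp only [shift, upd_ne hp]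
  · funext t p
    exact L.bit_shift own hN x x' h ω (fun k => congrFun ho k) t t.2 p

theorem comm_eq : (L.prot own hN).comm = n + N * (G + m) := by
  show ∑ t ∈ range (n + (G + m)), _ = _
  rw [Finset.sum_range_add]
  congr 1
  · rw [Finset.sum_congr rfl (g := fun _ => 1)]
    · simp
    · intro t ht
      have : t < n := mem_range.1 ht
      simp [prot, this]
  · rw [Finset.sum_congr rfl (g := fun _ => N)]
    · simp [mul_comm]
    · intro t _
      simp [prot]

theorem storage_le (l : ℕ) (hl : ∀ v a, (L.tm v a).ix.card ≤ l) :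
    (L.prot own hN).StorageLe (n + (G + m) * (M * 2 ^ l + 1)) := by
  classical
  intro p
  refine ⟨by show Finite (_ × _ × _); infer_instance, ?_⟩
  show Nat.card (({j : Fin n // own j = p} → ZMod 2) ×
    ((v : Fin (G + m)) → (a : Fin M) → ((L.tm v a).ix → ZMod 2) → ZMod 2) ×
    (Fin (G + m) → ZMod 2)) ≤ _
  rw [Nat.card_prod, Nat.card_prod]
  have h1 : Nat.card ({j : Fin n // own j = p} → ZMod 2) ≤ 2 ^ n := by
    rw [Nat.card_pi]
    simp only [Nat.card_zmod, Finset.prod_const]
    refine Nat.pow_le_pow_right (by norm_num) ?_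
    refine le_trans (Finset.card_le_univ _) ?_
    refine le_trans (Fintype.card_subtype_le _) ?_
    simp
  have h2 : Nat.card ((v : Fin (G + m)) → (a : Fin M) → ((L.tm v a).ix → ZMod 2) → ZMod 2) ≤
      2 ^ ((G + m) * (M * 2 ^ l)) := by
    rw [Nat.card_pi]
    calc ∏ v : Fin (G + m), Nat.card ((a : Fin M) → ((L.tm v a).ix → ZMod 2) → ZMod 2)
        ≤ ∏ _v : Fin (G + m), 2 ^ (M * 2 ^ l) := by
          refine Finset.prod_le_prod' fun v _ => ?_
          rw [Nat.card_pi]
          calc ∏ a : Fin M, Nat.card (((L.tm v a).ix → ZMod 2) → ZMod 2)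
              ≤ ∏ _a : Fin M, 2 ^ 2 ^ l := by
                refine Finset.prod_le_prod' fun a _ => ?_
                rw [Nat.card_pi]
                simp only [Nat.card_zmod, Finset.prod_const, card_univ, Fintype.card_pi,
                  ZMod.card, Fintype.card_coe]
                exact Nat.pow_le_pow_right (by norm_num)
                  (Nat.pow_le_pow_right (by norm_num) (hl v a))
            _ = 2 ^ (M * 2 ^ l) := by
                rw [Finset.prod_const, card_univ, Fintype.card_fin, ← pow_mul, mul_comm]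
      _ = 2 ^ ((G + m) * (M * 2 ^ l)) := by
          rw [Finset.prod_const, card_univ, Fintype.card_fin, ← pow_mul, mul_comm]
  have h3 : Nat.card (Fin (G + m) → ZMod 2) = 2 ^ (G + m) := by
    simp only [Nat.card_pi, Nat.card_zmod, Finset.prod_const, card_univ, Fintype.card_fin]
  rw [h3]
  calc _ ≤ 2 ^ n * (2 ^ ((G + m) * (M * 2 ^ l)) * 2 ^ (G + m)) :=
        Nat.mul_le_mul h1 (Nat.mul_le_mul_right _ h2)
    _ = 2 ^ (n + (G + m) * (M * 2 ^ l + 1)) := by
        rw [← pow_add, ← pow_add]
        congr 1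

end

end JuntaProg

end Pool.Agent.Work.MP_2ceb02_lc
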