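import Pool.Agent.Work.MP_2ceb02_lc.Xor.Defs
import Pool.Agent.Work.MP_2ceb02_lc.Xor.Junta

/-!
# Opening gates of a circuit with free exclusive or gates
-/

namespace Pool.Agent.Work.MP_2ceb02_lc

open Finset

namespace XorCircuit

variable {n m s : ℕ} (C : XorCircuit n m s)

theorem wire_input (x : Fin n → ZMod 2) (j : ℕ) (hj : j < n) : C.wire x j = x ⟨j, hj⟩ := by
  rw [wire, dif_pos hj]

theorem wire_gate (x : Fin n → ZMod 2) (i : Fin s) :
    C.wire x (n + i) = C.op i (fun c => ∑ w ∈ C.form i c, C.wire x w) := by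
  rw [wire]
  have h1 : ¬ (n + (i : ℕ) < n) := by omega
  have h2 : n + (i : ℕ) - n = i := by omega
  have h3 : n + (i : ℕ) - n < s := by rw [h2]; exact i.2
  rw [dif_neg h1, dif_pos h3]
  have key : ∀ i' : Fin s, i' = i → C.op i' (fun c => ∑ w ∈ C.form i' c, C.wire x w) =
      C.op i (fun c => ∑ w ∈ C.form i c, C.wire x w) := by
    intro i' hi; subst hi; rfl
  exact key _ (Fin.ext h2)

/-- The wire `w` is an input or the output of an opened gate. -/
def Opn (n : ℕ) (S : Finset (Fin s)) (w : ℕ) : Prop := w < n ∨ ∃ i ∈ S, w = n + (i : ℕ)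

open Classical in
/-- Evaluation from the open parts of the forms. -/
noncomputable def ev (S : Finset (Fin s)) (y : Fin s → Fin 2 → ZMod 2) (t : ℕ) : ZMod 2 :=
  if h : t < s then C.op ⟨t, h⟩ (fun c => y ⟨t, h⟩ c + ∑ w ∈ C.form ⟨t, h⟩ c,
    if h2 : Opn n S w then 0 else ev S y (w - n)) else 0
termination_by t
decreasing_by
  have h3 := w.2
  have h4 : ¬ (w : ℕ) < n := fun h => h2 (Or.inl h)
  simp only at h3
  omega

open Classical in
theorem ev_gate (S : Finset (Fin s)) (y : Fin s → Fin 2 → ZMod 2) (i : Fin s) :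
    C.ev S y i = C.op i (fun c => y i c + ∑ w ∈ C.form i c,
      if Opn n S w then 0 else C.ev S y (w - n)) := by
  rw [ev, dif_pos i.2]
  rfl

/-- The numbers of the wires in a form. -/
def nat {k : ℕ} (F : Finset (Fin k)) : Finset ℕ := F.map Fin.valEmbedding

theorem mem_nat {k : ℕ} {F : Finset (Fin k)} {w : ℕ} (h : w ∈ nat F) : w < k := by
  unfold nat at h
  rw [mem_map] at h
  obtain ⟨a, _, rfl⟩ := h
  exact a.2

theorem sum_nat {k : ℕ} (F : Finset (Fin k)) (f : ℕ → ZMod 2) :
    ∑ w ∈ nat F, f w = ∑ w ∈ F, f w := by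
  unfold nat
  rw [Finset.sum_map]
  rfl

open Classical in
theorem ev_val (S : Finset (Fin s)) (x : Fin n → ZMod 2) (t : ℕ) (ht : t < s) :
    C.ev S (fun i c => ∑ w ∈ (nat (C.form i c)).filter (fun w => Opn n S w), C.wire x w) t =
      C.wire x (n + t) := by
  induction t using Nat.strong_induction_on with
  | _ t ih =>
    have e1 := C.ev_gate S
      (fun i c => ∑ w ∈ (nat (C.form i c)).filter (fun w => Opn n S w), C.wire x w) ⟨t, ht⟩
    have e2 := C.wire_gate x ⟨t, ht⟩
    simp only at e1 e2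
    rw [e1, e2]
    congr 1
    funext c
    rw [← sum_nat (C.form ⟨t, ht⟩ c) (fun w => C.wire x w),
      ← Finset.sum_filter_add_sum_filter_not (nat (C.form ⟨t, ht⟩ c)) (fun w => Opn n S w)
      (fun w => C.wire x w)]
    congr 1
    rw [Finset.sum_filter, sum_nat (C.form ⟨t, ht⟩ c)
      (fun w => if ¬ Opn n S w then C.wire x w else 0)]
    refine Finset.sum_congr rfl fun w _ => ?_
    by_cases hw : Opn n S w
    · simp [hw]
    · rw [if_neg hw, if_pos hw]
      have h3 : (w : ℕ) < n + t := w.2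
      have h4 : ¬ (w : ℕ) < n := fun h => hw (Or.inl h)
      rw [ih _ (by omega) (by omega)]
      congr 1
      omega

theorem ev_congr (S : Finset (Fin s)) (lab : Fin s → Finset (Fin s))
    (h1 : ∀ a, a ∉ S → a ∈ lab a)
    (h2 : ∀ a, a ∉ S → ∀ b, b ∉ S → C.Adj a b → lab a = lab b)
    (y y' : Fin s → Fin 2 → ZMod 2) (i : Fin s) (hi : i ∉ S)
    (h : ∀ u ∈ lab i, u ≤ i → y u = y' u) : C.ev S y i = C.ev S y' i := by
  classical
  obtain ⟨t, ht⟩ := i
  induction t using Nat.strong_induction_on with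
  | _ t ih =>
    rw [C.ev_gate S y, C.ev_gate S y']
    congr 1
    funext c
    rw [h ⟨t, ht⟩ (h1 _ hi) le_rfl]
    congr 1
    refine Finset.sum_congr rfl fun w hw => ?_
    by_cases ho : Opn n S w
    · rw [if_pos ho, if_pos ho]
    · rw [if_neg ho, if_neg ho]
      have h3 := w.2
      simp only at h3
      have h4 : ¬ (w : ℕ) < n := fun h => ho (Or.inl h)
      have h5 : (w : ℕ) - n < t := by omega
      have h6 : (⟨(w : ℕ) - n, h5.trans ht⟩ : Fin s) ∉ S := by
        intro hS
        exact ho (Or.inr ⟨_, hS, by simp only; omega⟩)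
      have hadj : C.Adj ⟨(w : ℕ) - n, h5.trans ht⟩ ⟨t, ht⟩ :=
        Or.inl ⟨c, w, hw, by simp only; omega⟩
      have hlab := h2 _ h6 _ hi hadj
      refine ih _ h5 (h5.trans ht) h6 ?_
      intro u hu hui
      rw [hlab] at hu
      exact h u hu (hui.trans (by rw [Fin.le_def]; exact h5.le))

/-- The rank of an opened gate. -/
noncomputable def rk (S : Finset (Fin s)) (i : Fin s) (hi : i ∈ S) : Fin S.card :=
  (S.orderIsoOfFin rfl).symm ⟨i, hi⟩

/-- The opened gates in order. -/
noncomputable def el (S : Finset (Fin s)) (k : Fin S.card) : Fin s := S.orderIsoOfFin rfl k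

theorem el_mem (S : Finset (Fin s)) (k : Fin S.card) : el S k ∈ S := (S.orderIsoOfFin rfl k).2

theorem el_rk (S : Finset (Fin s)) (i : Fin s) (hi : i ∈ S) : el S (rk S i hi) = i := by
  unfold el rk
  exact congrArg Subtype.val ((S.orderIsoOfFin rfl).apply_symm_apply ⟨i, hi⟩)

theorem rk_lt (S : Finset (Fin s)) (i : Fin s) (hi : i ∈ S) (k : Fin S.card) (h : i < el S k) :
    rk S i hi < k := by
  have h1 : (⟨i, hi⟩ : S) < S.orderIsoOfFin rfl k := h
  have h3 := (S.orderIsoOfFin rfl).symm.lt_iff_lt.2 h1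
  rw [OrderIso.symm_apply_apply] at h3
  exact h3

open Classical in
/-- The program wire of an open circuit wire. -/
noncomputable def idx (n : ℕ) (S : Finset (Fin s)) (w : ℕ) : ℕ :=
  if w < n then w else if h : ∃ h : w - n < s, (⟨w - n, h⟩ : Fin s) ∈ S then
    n + 3 * (rk S ⟨w - n, h.1⟩ h.2 : ℕ) + 2 else 0

theorem idx_input (S : Finset (Fin s)) (w : ℕ) (h : w < n) : idx n S w = w := by
  unfold idx
  rw [if_pos h]

theorem idx_gate (S : Finset (Fin s)) (i : Fin s) (hi : i ∈ S) :
    idx n S (n + i) = n + 3 * (rk S i hi : ℕ) + 2 := by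
  unfold idx
  have h2 : n + (i : ℕ) - n = i := by omega
  have key : ∀ i' : Fin s, i' = i → ∀ hi' : i' ∈ S, (rk S i' hi' : ℕ) = rk S i hi := by
    intro i' h; subst h; intro _; rfl
  have h3 : ∃ h : n + (i : ℕ) - n < s, (⟨n + (i : ℕ) - n, h⟩ : Fin s) ∈ S := by
    refine ⟨by rw [h2]; exact i.2, ?_⟩
    convert hi
  rw [if_neg (by omega), dif_pos h3, key _ (Fin.ext h2)]

theorem idx_inj (S : Finset (Fin s)) (w w' : ℕ) (hw : Opn n S w) (hw' : Opn n S w')
    (h : idx n S w = idx n S w') : w = w' := by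
  rcases hw with hw | ⟨i, hi, rfl⟩
  · rw [idx_input S w hw] at h
    rcases hw' with hw' | ⟨i, hi, rfl⟩
    · rwa [idx_input S w' hw'] at h
    · rw [idx_gate S i hi] at h; omega
  · rw [idx_gate S i hi] at h
    rcases hw' with hw' | ⟨j, hj, rfl⟩
    · rw [idx_input S w' hw'] at h; omega
    · rw [idx_gate S j hj] at h
      have h1 : rk S i hi = rk S j hj := Fin.ext (by omega)
      have h2 := el_rk S i hi
      rw [h1, el_rk] at h2
      rw [h2]

theorem idx_lt (S : Finset (Fin s)) (w t k : ℕ) (hw : Opn n S w) (hwt : w < n + t)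
    (hk : ∀ j (hj : j ∈ S), (j : ℕ) < t → (rk S j hj : ℕ) < k) : idx n S w < n + 3 * k := by
  rcases hw with hw | ⟨i, hi, rfl⟩
  · rw [idx_input S w hw]; omega
  · rw [idx_gate S i hi]
    have := hk i hi (by omega)
    omega

open Classical in
/-- The open part of a form. -/
noncomputable def outer (n : ℕ) (S : Finset (Fin s)) (F : Finset ℕ) : Finset ℕ :=
  (F.filter (fun w => Opn n S w)).image (idx n S)

open Classical in
theorem sum_outer (S : Finset (Fin s)) (F : Finset ℕ) (Y : ℕ → ZMod 2) :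
    ∑ w ∈ outer n S F, Y w = ∑ w ∈ F.filter (fun w => Opn n S w), Y (idx n S w) := by
  unfold outer
  rw [Finset.sum_image]
  intro w hw w' hw' h
  rw [mem_coe, mem_filter] at hw hw'
  exact idx_inj S w w' hw.2 hw'.2 h

theorem outer_lt (S : Finset (Fin s)) (F : Finset ℕ) (t k : ℕ) (hF : ∀ w ∈ F, w < n + t)
    (hk : ∀ j (hj : j ∈ S), (j : ℕ) < t → (rk S j hj : ℕ) < k) :
    ∀ w ∈ outer n S F, w < n + 3 * k := by
  classical
  intro w hw
  unfold outer at hw
  rw [mem_image] at hw
  obtain ⟨w', hw', rfl⟩ := hw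
  rw [mem_filter] at hw'
  exact idx_lt S w' t k hw'.2 (hF _ hw'.1) hk

/-- The zero term. -/
def tz (s : ℕ) : Tm (Option (Fin s × Fin 2)) where
  ix := ∅
  form := fun _ => ∅
  fn := fun _ => 0

/-- The open part of a form. -/
noncomputable def tl (n : ℕ) (S : Finset (Fin s)) (F : Finset ℕ) :
    Tm (Option (Fin s × Fin 2)) where
  ix := {none}
  form := fun _ => outer n S F
  fn := fun b => b ⟨none, mem_singleton_self _⟩

open Classical in
/-- The value of a gate which is not opened. -/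
noncomputable def tg (S : Finset (Fin s)) (lab : Fin s → Finset (Fin s)) (i : Fin s) :
    Tm (Option (Fin s × Fin 2)) where
  ix := (((lab i).filter (fun u => u ≤ i)) ×ˢ univ).image some
  form := fun o => match o.1 with
    | none => ∅
    | some (u, c) => outer n S (nat (C.form u c))
  fn := fun b => C.ev S (fun u c =>
    if h : some (u, c) ∈ (((lab i).filter (fun u => u ≤ i)) ×ˢ univ).image some
    then b ⟨some (u, c), h⟩ else 0) i

/-- The value of an opened gate. -/
def topn (n : ℕ) (i : Fin s) (k : ℕ) : Tm (Option (Fin s × Fin 2)) where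
  ix := univ.image (fun c : Fin 2 => some (i, c))
  form := fun o => match o.1 with
    | none => ∅
    | some (_, c) => {n + 3 * k + c}
  fn := fun b => C.op i (fun c => b ⟨some (i, c), mem_image_of_mem _ (mem_univ c)⟩)

/-- The value of a term. -/
def _root_.Pool.Agent.Work.MP_2ceb02_lc.Tm.val {ι : Type} (T : Tm ι) (Y : ℕ → ZMod 2) : ZMod 2 :=
  T.fn (fun i => ∑ w ∈ T.form i, Y w)

theorem val_tz (Y : ℕ → ZMod 2) : (tz s).val Y = 0 := rfl

open Classical in
theorem val_tl (S : Finset (Fin s)) (F : Finset ℕ) (Y : ℕ → ZMod 2) :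
    (tl n S F).val Y = ∑ w ∈ F.filter (fun w => Opn n S w), Y (idx n S w) :=
  sum_outer S F Y

theorem val_topn (i : Fin s) (k : ℕ) (Y : ℕ → ZMod 2) :
    (C.topn n i k).val Y = C.op i (fun c => Y (n + 3 * k + c)) := by
  show C.op i _ = _
  congr 1
  funext c
  simp [topn]

theorem val_tg (S : Finset (Fin s)) (lab : Fin s → Finset (Fin s))
    (h1 : ∀ a, a ∉ S → a ∈ lab a)
    (h2 : ∀ a, a ∉ S → ∀ b, b ∉ S → C.Adj a b → lab a = lab b) (i : Fin s) (hi : i ∉ S)
    (x : Fin n → ZMod 2) (Y : ℕ → ZMod 2)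
    (hY : ∀ w, Opn n S w → w < n + i → Y (idx n S w) = C.wire x w) :
    (C.tg S lab i).val Y = C.wire x (n + i) := by
  classical
  rw [← C.ev_val S x i i.2]
  unfold Tm.val tg
  simp only
  apply C.ev_congr S lab h1 h2 _ _ i hi
  intro u hu hui
  funext c
  have hmem : some (u, c) ∈ (((lab i).filter (fun u => u ≤ i)) ×ˢ
      (univ : Finset (Fin 2))).image some := by
    rw [mem_image]
    exact ⟨(u, c), by rw [mem_product, mem_filter]; exact ⟨⟨hu, hui⟩, mem_univ _⟩, rfl⟩
  rw [dif_pos hmem]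
  show ∑ w ∈ outer n S (nat (C.form u c)), Y w = _
  rw [sum_outer]
  have e1 : ∑ w ∈ (nat (C.form u c)).filter (fun w => Opn n S w), Y (idx n S w) =
      ∑ w ∈ (nat (C.form u c)).filter (fun w => Opn n S w), C.wire x w := by
    refine Finset.sum_congr rfl fun w hw => ?_
    rw [mem_filter] at hw
    have h3 := mem_nat hw.1
    have h4 : (u : ℕ) ≤ i := hui
    exact hY w hw.2 (by omega)
  rw [e1]

end XorCircuit

end Pool.Agent.Work.MP_2ceb02_lc
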