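import Pool.Agent.Work.MP_2ceb02_lc.Defs

/-!
# Boolean circuits with free exclusive or gates
-/

namespace Pool.Agent.Work.MP_2ceb02_lc

open Finset

/-- A boolean circuit with `n` inputs, `m` outputs and `s` counted gates of fan-in two; exclusive
or gates of any fan-in are free. The wires are numbered: the wires `0, ..., n - 1` are the inputs
and the wire `n + i` is the output of the gate `i`. The gate `i` computes the function `op i` of
two bits, the bit `c` being the sum (exclusive or) of the earlier wires in the set `form i c`. The
output `k` is the sum of the wires in `out k`. -/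
structure XorCircuit (n m s : ℕ) where
  form : (i : Fin s) → Fin 2 → Finset (Fin (n + i))
  op : Fin s → (Fin 2 → ZMod 2) → ZMod 2
  out : Fin m → Finset (Fin (n + s))

namespace XorCircuit

variable {n m s : ℕ} (C : XorCircuit n m s)

/-- The value of the wire `t`. -/
def wire (x : Fin n → ZMod 2) (t : ℕ) : ZMod 2 :=
  if h : t < n then x ⟨t, h⟩
  else if h' : t - n < s then
    C.op ⟨t - n, h'⟩ (fun c => ∑ w ∈ C.form ⟨t - n, h'⟩ c, wire x w)
  else 0
termination_by t
decreasing_by
  have := w.2
  simp only at this
  omega

/-- The function computed by a circuit. -/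
def eval (x : Fin n → ZMod 2) : Fin m → ZMod 2 :=
  fun k => ∑ w ∈ C.out k, C.wire x w

/-- The output of the gate `i` occurs in one of the two forms of the gate `j`. -/
def Feeds (i j : Fin s) : Prop := ∃ c, ∃ w ∈ C.form j c, (w : ℕ) = n + i

/-- The graph on the counted gates. -/
def Adj (i j : Fin s) : Prop := C.Feeds i j ∨ C.Feeds j i

/-- Hereditary separators of the graph on the counted gates: every set `W` of at least two gates
has a part `X` with at most `σ |W|` elements such that the rest of `W` splits into two sets of at
most `2 |W| / 3` gates with no edge between them. -/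
def HasSeparators (σ : ℝ → ℝ) : Prop :=
  ∀ W : Finset (Fin s), 2 ≤ W.card → ∃ X A B : Finset (Fin s), X ⊆ W ∧ A ∪ B = W \ X ∧
    Disjoint A B ∧ (X.card : ℝ) ≤ σ W.card ∧ 3 * A.card ≤ 2 * W.card ∧ 3 * B.card ≤ 2 * W.card ∧
    ∀ a ∈ A, ∀ b ∈ B, ¬ C.Adj a b

end XorCircuit

end Pool.Agent.Work.MP_2ceb02_lc
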