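import Pool.Agent.Work.MP_2ceb02_lc.Xor.Final
import Mathlib.Analysis.SpecialFunctions.Log.Base

/-!
# Separators satisfying a Dini condition
-/

namespace Pool.Agent.Work.MP_2ceb02_lc

open Finset MeasureTheory Filter Topology

theorem tendsto_tail (f : ℝ → ℝ) (hint : IntegrableOn f (Set.Ioi 1)) :
    Tendsto (fun x : ℝ => ∫ u in Set.Ioi x, f u) atTop (𝓝 0) := by
  have h1 := intervalIntegral_tendsto_integral_Ioi 1 hint tendsto_id
  have h2 : Tendsto (fun x : ℝ => (∫ u in Set.Ioi 1, f u) - ∫ u in (1 : ℝ)..x, f u)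
      atTop (𝓝 0) := by
    have := (tendsto_const_nhds (x := ∫ u in Set.Ioi 1, f u)).sub h1
    rw [sub_self] at this
    exact this
  refine h2.congr' ?_
  filter_upwards [eventually_gt_atTop (1 : ℝ)] with x hx
  have h3 : IntegrableOn f (Set.Ioc 1 x) := hint.mono_set Set.Ioc_subset_Ioi_self
  have h4 : IntegrableOn f (Set.Ioi x) := hint.mono_set (Set.Ioi_subset_Ioi hx.le)
  have h5 : Set.Ioi (1 : ℝ) = Set.Ioc 1 x ∪ Set.Ioi x := (Set.Ioc_union_Ioi_eq_Ioi hx.le).symm
  rw [intervalIntegral.integral_of_le hx.le, h5,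
    setIntegral_union (Set.Ioc_disjoint_Ioi le_rfl) measurableSet_Ioi h3 h4]
  ring

theorem log_bound (s : ℕ) (hs : 256 ≤ s) : 1 < Real.logb 2 s / 4 ∧
    Real.logb 2 s / 4 ≤ 2 * ((Nat.log 2 s / 2 : ℕ) : ℝ) / 3 := by
  have hs0 : (0 : ℝ) < s := by exact_mod_cast (by omega : 0 < s)
  have h8 : (8 : ℝ) ≤ Real.logb 2 s := by
    rw [Real.le_logb_iff_rpow_le (by norm_num) hs0]
    have : ((256 : ℕ) : ℝ) ≤ s := by exact_mod_cast hs
    calc (2 : ℝ) ^ (8 : ℝ) = 2 ^ (8 : ℕ) := by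
          rw [← Real.rpow_natCast]; norm_num
      _ = 256 := by norm_num
      _ ≤ s := by exact_mod_cast hs
  have h1 : s < 2 ^ (Nat.log 2 s + 1) := Nat.lt_pow_succ_log_self (by norm_num) s
  have h2 : Real.logb 2 s ≤ Nat.log 2 s + 1 := by
    rw [Real.logb_le_iff_le_rpow (by norm_num) hs0]
    have : (s : ℝ) ≤ 2 ^ (Nat.log 2 s + 1) := by exact_mod_cast h1.le
    calc (s : ℝ) ≤ 2 ^ (Nat.log 2 s + 1) := this
      _ = (2 : ℝ) ^ ((Nat.log 2 s : ℝ) + 1) := by
          rw [← Real.rpow_natCast]; push_cast; rfl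
  have h3 : Nat.log 2 s ≤ 2 * (Nat.log 2 s / 2) + 1 := by omega
  have h4 : (Nat.log 2 s : ℝ) ≤ 2 * ((Nat.log 2 s / 2 : ℕ) : ℝ) + 1 := by exact_mod_cast h3
  constructor
  · linarith
  · linarith

namespace XorCircuit

/-- Separators of size `k η(k)` with `∫ η(u)/u du < ∞`. -/
theorem prot_dini_large (η : ℝ → ℝ) (h0 : ∀ u, 1 < u → 0 ≤ η u)
    (hanti : AntitoneOn η (Set.Ioi 1))
    (hint : IntegrableOn (fun u => η u / u) (Set.Ioi 1))
    (N n m s : ℕ) (hN : 0 < N) (hs : 256 ≤ s) (own : Fin n → Fin N) (C : XorCircuit n m s)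
    (hsep : C.HasSeparators (fun k => k * η k)) :
    C.Prot N own (9 * s * ∫ u in Set.Ioi (Real.logb 2 s / 4), η u / u) := by
  set f : ℝ → ℝ := fun u => η u / u with hf
  have hfpos : ∀ u, 1 < u → 0 ≤ f u := fun u hu => div_nonneg (h0 u hu) (by linarith)
  obtain ⟨hl1, hl2⟩ := log_bound s hs
  set L : ℕ := Nat.log 2 s / 2 with hLdef
  have ha1 : 1 < 2 * (L : ℝ) / 3 := by linarith
  have hL1 : 1 ≤ L := by
    by_contra h
    have : L = 0 := by omega
    rw [this] at ha1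
    norm_num at ha1
  let φ : ℝ → ℝ := fun t => 3 * ∫ u in Set.Ioc (2 * (L : ℝ) / 3) t, f u
  have hIoc : ∀ t, IntegrableOn f (Set.Ioc (2 * (L : ℝ) / 3) t) := fun t =>
    hint.mono_set (Set.Ioc_subset_Ioi_self.trans (Set.Ioi_subset_Ioi ha1.le))
  have hnn : ∀ t, 0 ≤ ∫ u in Set.Ioc (2 * (L : ℝ) / 3) t, f u := fun t =>
    setIntegral_nonneg measurableSet_Ioc (fun u hu => hfpos u (ha1.trans hu.1))
  have key := C.prot_of_phi hN own (by omega) L hL1 (by omega) (fun k => k * η k) φ ?_ ?_ ?_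
    hsep
  · refine Prot.mono C key ?_
    have hle : ∫ u in Set.Ioc (2 * (L : ℝ) / 3) s, f u ≤
        ∫ u in Set.Ioi (Real.logb 2 s / 4), f u := by
      apply setIntegral_mono_set (hint.mono_set (Set.Ioi_subset_Ioi hl1.le))
      · rw [EventuallyLE, ae_restrict_iff' measurableSet_Ioi]
        exact ae_of_all _ (fun u hu => hfpos u (hl1.trans hu))
      · exact (Set.Ioc_subset_Ioi_self.trans (Set.Ioi_subset_Ioi hl2)).eventuallyLE
    have hs0 : (0 : ℝ) ≤ s := Nat.cast_nonneg _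
    simp only [φ]
    nlinarith [mul_le_mul_of_nonneg_left hle hs0]
  · intro x y _ hxy
    apply mul_le_mul_of_nonneg_left _ (by norm_num)
    apply setIntegral_mono_set (hIoc y)
    · rw [EventuallyLE, ae_restrict_iff' measurableSet_Ioc]
      exact ae_of_all _ (fun u hu => hfpos u (ha1.trans hu.1))
    · exact (Set.Ioc_subset_Ioc_right hxy).eventuallyLE
  · intro x
    exact mul_nonneg (by norm_num) (hnn x)
  · intro k hk
    have hkL : (L : ℝ) < k := by exact_mod_cast hk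
    have hk0 : (0 : ℝ) < k := by linarith
    have h1 : 2 * (L : ℝ) / 3 ≤ 2 * k / 3 := by linarith
    have h2 : 2 * (k : ℝ) / 3 ≤ k := by linarith
    have hsub : Set.Ioc (2 * (k : ℝ) / 3) k ⊆ Set.Ioc (2 * (L : ℝ) / 3) k :=
      Set.Ioc_subset_Ioc_left h1
    have hi : IntegrableOn f (Set.Ioc (2 * (k : ℝ) / 3) k) := (hIoc k).mono_set hsub
    have h3 : ∫ u in Set.Ioc (2 * (L : ℝ) / 3) (k : ℝ), f u =
        (∫ u in Set.Ioc (2 * (L : ℝ) / 3) (2 * (k : ℝ) / 3), f u) +
          ∫ u in Set.Ioc (2 * (k : ℝ) / 3) k, f u := by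
      rw [← Set.Ioc_union_Ioc_eq_Ioc h1 h2,
        setIntegral_union (Set.Ioc_disjoint_Ioc_of_le le_rfl) measurableSet_Ioc (hIoc _) hi]
    have h4 : η k / k * volume.real (Set.Ioc (2 * (k : ℝ) / 3) k) ≤
        ∫ u in Set.Ioc (2 * (k : ℝ) / 3) k, f u := by
      apply setIntegral_ge_of_const_le_real measurableSet_Ioc (by simp) _ hi
      intro u hu
      have hu1 : 1 < u := by linarith [hu.1]
      have hk1 : (1 : ℝ) < k := by linarith
      have e1 : η k ≤ η u := hanti hu1 hk1 hu.2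
      have e2 : 0 ≤ η k := h0 _ hk1
      exact div_le_div₀ (h0 u hu1) e1 (by linarith) hu.2
    rw [Real.volume_real_Ioc_of_le h2] at h4
    have h5 : η k / k * (k - 2 * k / 3) = η k / 3 := by field_simp; ring
    rw [h5] at h4
    simp only [φ]
    rw [h3]
    nlinarith

theorem small_aux (n m s : ℕ) :
    n + (3 * s + m) * ((s + 1) * 2 ^ (2 * 1) + 1) ≤ n + 9 * (s + m) * (s + 1) ^ 2 := by
  rcases Nat.eq_zero_or_pos s with rfl | hs
  · simp; omega
  · have h1 : (s + 1) * 2 ^ (2 * 1) + 1 ≤ 3 * (s + 1) ^ 2 := by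
      obtain ⟨r, rfl⟩ : ∃ r, s = r + 1 := ⟨s - 1, by omega⟩
      norm_num
      nlinarith
    have h2 : 3 * s + m ≤ 3 * (s + m) := by omega
    calc n + (3 * s + m) * ((s + 1) * 2 ^ (2 * 1) + 1) ≤ n + 3 * (s + m) * (3 * (s + 1) ^ 2) :=
          Nat.add_le_add_left (Nat.mul_le_mul h2 h1) _
      _ = n + 9 * (s + m) * (s + 1) ^ 2 := by ring

theorem prot_small {N n m s : ℕ} (hN : 0 < N) (own : Fin n → Fin N) (C : XorCircuit n m s) :
    ∃ P : Protocol N n m own, P.Correct C.eval ∧ P.Secure C.eval ∧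
      P.comm = n + N * (m + 3 * s) ∧ P.StorageLe (n + 9 * (s + m) * (s + 1) ^ 2) := by
  obtain ⟨P, h1, h2, h3, h4⟩ := C.protocol_of_pieces hN own univ (fun _ => ∅) 1 le_rfl
    (fun a ha => absurd (mem_univ a) ha) (fun a ha => absurd (mem_univ a) ha)
  refine ⟨P, h1, h2, ?_, h4.mono ?_⟩
  · rw [h3]
    simp only [card_univ, Fintype.card_fin]
    ring
  · simp only [card_univ, Fintype.card_fin]
    exact small_aux n m s

/-- Separators of size `k η(k)` with `∫ η(u)/u du < ∞`. -/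
theorem prot_dini (η : ℝ → ℝ) (h0 : ∀ u, 1 < u → 0 ≤ η u)
    (hanti : AntitoneOn η (Set.Ioi 1))
    (hint : IntegrableOn (fun u => η u / u) (Set.Ioi 1)) :
    ∃ g : ℕ → ℝ, (g =o[atTop] fun s : ℕ => (s : ℝ)) ∧
      (∀ s : ℕ, 256 ≤ s → g s = 9 * s * ∫ u in Set.Ioi (Real.logb 2 s / 4), η u / u) ∧
      ∀ (N n m s : ℕ), 0 < N → ∀ (own : Fin n → Fin N) (C : XorCircuit n m s),
        C.HasSeparators (fun k => k * η k) →
          ∃ P : Protocol N n m own, P.Correct C.eval ∧ P.Secure C.eval ∧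
            (P.comm : ℝ) ≤ n + N * (m + g s) ∧ P.StorageLe (n + 9 * (s + m) * (s + 1) ^ 2) := by
  refine ⟨fun s => if s < 256 then 3 * s else
    9 * s * ∫ u in Set.Ioi (Real.logb 2 s / 4), η u / u, ?_, ?_, ?_⟩
  · have hlog : Tendsto (fun s : ℕ => Real.logb 2 s / 4) atTop atTop := by
      have h1 : Tendsto (fun s : ℕ => Real.logb 2 (s : ℝ)) atTop atTop :=
        (Real.tendsto_logb_atTop (by norm_num)).comp tendsto_natCast_atTop_atTop
      exact h1.atTop_div_const (by norm_num)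
    have hlim := ((tendsto_tail _ hint).comp hlog).const_mul 9
    rw [mul_zero] at hlim
    rw [Asymptotics.isLittleO_iff_tendsto']
    · refine hlim.congr' ?_
      filter_upwards [eventually_ge_atTop 256] with s hs
      rw [if_neg (by omega)]
      have : (s : ℝ) ≠ 0 := by exact_mod_cast (by omega : s ≠ 0)
      simp only [Function.comp]
      field_simp
    · filter_upwards [eventually_gt_atTop 0] with s hs h
      exfalso
      have : (s : ℝ) ≠ 0 := by exact_mod_cast hs.ne'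
      exact this h
  · intro s hs
    simp only
    rw [if_neg (by omega)]
  · intro N n m s hN own C hsep
    beta_reduce
    by_cases hs : s < 256
    · rw [if_pos hs]
      obtain ⟨P, h1, h2, h3, h4⟩ := C.prot_small hN own
      refine ⟨P, h1, h2, ?_, h4⟩
      rw [h3]
      push_cast
      exact le_rfl
    · rw [if_neg hs]
      obtain ⟨P, h1, h2, h3, h4⟩ := C.prot_dini_large η h0 hanti hint N n m s hN (by omega) own
        hsep
      refine ⟨P, h1, h2, h3, h4.mono ?_⟩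
      have : 3 * (s + m) * (s + 1) ^ 2 ≤ 9 * (s + m) * (s + 1) ^ 2 := by
        apply Nat.mul_le_mul_right
        omega
      omega

end XorCircuit

end Pool.Agent.Work.MP_2ceb02_lc
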