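import Pool.Agent.Work.MP_2ceb02_lc.Xor.Prog
import Pool.Agent.Work.MP_2ceb02_lc.Final

/-!
# Protocols for circuits with free exclusive or gates
-/

namespace Pool.Agent.Work.MP_2ceb02_lc

open Finset MeasureTheory Filter Topology

/-- Hereditary separators of a graph. -/
def HasSep {s : ℕ} (adj : Fin s → Fin s → Prop) (σ : ℝ → ℝ) : Prop :=
  ∀ W : Finset (Fin s), 2 ≤ W.card → ∃ X A B : Finset (Fin s), X ⊆ W ∧ A ∪ B = W \ X ∧
    Disjoint A B ∧ (X.card : ℝ) ≤ σ W.card ∧ 3 * A.card ≤ 2 * W.card ∧ 3 * B.card ≤ 2 * W.card ∧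
    ∀ a ∈ A, ∀ b ∈ B, ¬ adj a b

theorem exists_pieces' {s : ℕ} (adj : Fin s → Fin s → Prop) (hsymm : ∀ a b, adj a b → adj b a) (L : ℕ) (hL : 1 ≤ L) (σ φ : ℝ → ℝ) (hφ : ∀ a b, 0 ≤ a → a ≤ b → φ a ≤ φ b)
    (h0 : ∀ a, 0 ≤ φ a)
    (hσ : ∀ k : ℕ, L < k → k * φ (2 * k / 3) + σ k ≤ k * φ k)
    (hsep : HasSep adj σ) (W : Finset (Fin s)) :
    ∃ S ⊆ W, ∃ lab : Fin s → Finset (Fin s),
      (∀ a ∈ W, a ∉ S → a ∈ lab a ∧ (lab a).card ≤ L) ∧
      (∀ a ∈ W, a ∉ S → ∀ b ∈ W, b ∉ S → adj a b → lab a = lab b) ∧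
      (S.card : ℝ) ≤ W.card * φ W.card := by
  induction' hk : W.card using Nat.strong_induction_on with k ih generalizing W
  by_cases hWL : k ≤ L
  · refine ⟨∅, empty_subset _, fun _ => W, ?_, ?_, ?_⟩
    · intro a ha _
      exact ⟨ha, by simp only; omega⟩
    · intro a _ _ b _ _ _
      rfl
    · simp only [card_empty, Nat.cast_zero]
      exact mul_nonneg (Nat.cast_nonneg _) (h0 _)
  · push Not at hWL
    obtain ⟨X, A, B, hXW, hAB, hdis, hX, hA, hB, hadj⟩ := hsep W (by omega)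
    rw [hk] at hX hA hB
    obtain ⟨SA, hSA, labA, a1, a2, a3⟩ := ih A.card (by omega) A rfl
    obtain ⟨SB, hSB, labB, b1, b2, b3⟩ := ih B.card (by omega) B rfl
    have hAW : A ⊆ W := by
      intro a ha
      have : a ∈ W \ X := by rw [← hAB]; exact mem_union_left _ ha
      exact (mem_sdiff.1 this).1
    have hBW : B ⊆ W := by
      intro a ha
      have : a ∈ W \ X := by rw [← hAB]; exact mem_union_right _ ha
      exact (mem_sdiff.1 this).1
    have hcase : ∀ a ∈ W, a ∉ X ∪ SA ∪ SB → (a ∈ A ∧ a ∉ SA) ∨ (a ∈ B ∧ a ∉ A ∧ a ∉ SB) := by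
      intro a ha hna
      simp only [mem_union, not_or] at hna
      have : a ∈ A ∪ B := by rw [hAB]; exact mem_sdiff.2 ⟨ha, hna.1.1⟩
      rcases mem_union.1 this with h | h
      · exact Or.inl ⟨h, hna.1.2⟩
      · refine Or.inr ⟨h, ?_, hna.2⟩
        intro h'
        exact (Finset.disjoint_left.1 hdis) h' h
    refine ⟨X ∪ SA ∪ SB, ?_, fun a => if a ∈ A then labA a else labB a, ?_, ?_, ?_⟩
    · exact union_subset (union_subset hXW (hSA.trans hAW)) (hSB.trans hBW)
    · intro a ha hna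
      beta_reduce
      rcases hcase a ha hna with ⟨h1, h2⟩ | ⟨h1, h2, h3⟩
      · rw [if_pos h1]; exact a1 a h1 h2
      · rw [if_neg h2]; exact b1 a h1 h3
    · intro a ha hna b hb hnb hab
      beta_reduce
      rcases hcase a ha hna with ⟨h1, h2⟩ | ⟨h1, h2, h3⟩
      · rcases hcase b hb hnb with ⟨g1, g2⟩ | ⟨g1, g2, g3⟩
        · rw [if_pos h1, if_pos g1]; exact a2 a h1 h2 b g1 g2 hab
        · exact absurd hab (hadj a h1 b g1)
      · rcases hcase b hb hnb with ⟨g1, g2⟩ | ⟨g1, g2, g3⟩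
        · have : adj b a := hsymm _ _ hab
          exact absurd this (hadj b g1 a h1)
        · rw [if_neg h2, if_neg g2]; exact b2 a h1 h3 b g1 g3 hab
    · have hcard : (X ∪ SA ∪ SB).card ≤ X.card + SA.card + SB.card :=
        (card_union_le _ _).trans (Nat.add_le_add_right (card_union_le _ _) _)
      have hcard' : ((X ∪ SA ∪ SB).card : ℝ) ≤ X.card + SA.card + SB.card := by
        exact_mod_cast hcard
      have hsum : A.card + B.card ≤ k := by
        rw [← card_union_of_disjoint hdis, hAB, ← hk]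
        exact card_le_card sdiff_subset
      have hsum' : (A.card : ℝ) + B.card ≤ k := by exact_mod_cast hsum
      have hA' : (A.card : ℝ) ≤ 2 * k / 3 := by
        rw [le_div_iff₀ (by norm_num)]
        have : ((A.card * 3 : ℕ) : ℝ) ≤ ((2 * k : ℕ) : ℝ) := by exact_mod_cast (by omega)
        push_cast at this
        exact this
      have hB' : (B.card : ℝ) ≤ 2 * k / 3 := by
        rw [le_div_iff₀ (by norm_num)]
        have : ((B.card * 3 : ℕ) : ℝ) ≤ ((2 * k : ℕ) : ℝ) := by exact_mod_cast (by omega)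
        push_cast at this
        exact this
      have eA : (A.card : ℝ) * φ A.card ≤ A.card * φ (2 * k / 3) :=
        mul_le_mul_of_nonneg_left (hφ _ _ (Nat.cast_nonneg _) hA') (Nat.cast_nonneg _)
      have eB : (B.card : ℝ) * φ B.card ≤ B.card * φ (2 * k / 3) :=
        mul_le_mul_of_nonneg_left (hφ _ _ (Nat.cast_nonneg _) hB') (Nat.cast_nonneg _)
      have eS : ((A.card : ℝ) + B.card) * φ (2 * k / 3) ≤ k * φ (2 * k / 3) :=
        mul_le_mul_of_nonneg_right hsum' (h0 _)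
      have := hσ k hWL
      nlinarith


namespace XorCircuit

variable {n m s : ℕ} (C : XorCircuit n m s)

theorem prog_out (S : Finset (Fin s)) (lab : Fin s → Finset (Fin s))
    (h1 : ∀ a, a ∉ S → a ∈ lab a)
    (h2 : ∀ a, a ∉ S → ∀ b, b ∉ S → C.Adj a b → lab a = lab b) :
    (fun (x : Fin n → ZMod 2) (k : Fin m) => (C.prog S lab).W x (n + (3 * S.card + k))) =
      C.eval := by
  funext x k
  have h := C.prog_W S lab h1 h2 x ⟨3 * S.card + k, by omega⟩
  simp only at h
  rw [h]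
  unfold sem
  have h3 : ¬ (3 * S.card + (k : ℕ)) / 3 < S.card := by omega
  simp only [dif_neg h3]
  have h4 : (⟨3 * S.card + (k : ℕ) - 3 * S.card, by omega⟩ : Fin m) = k := Fin.ext (by simp)
  rw [h4]
  rfl

theorem card_tms (S : Finset (Fin s)) (lab : Fin s → Finset (Fin s)) (L : ℕ) (hL : 1 ≤ L)
    (h1 : ∀ a, a ∉ S → (lab a).card ≤ L) (v : Fin (3 * S.card + m)) (a : Fin (s + 1)) :
    (C.tms S lab v a).ix.card ≤ 2 * L := by
  classical
  have hF : ∀ F : Finset ℕ, (C.rowF S lab F a).ix.card ≤ 2 * L := by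
    intro F
    refine Fin.cases ?_ (fun i => ?_) a
    · simp only [rowF, Fin.cases_zero, tl, card_singleton]
      omega
    · simp only [rowF, Fin.cases_succ]
      split_ifs with h
      · unfold tg
        simp only
        refine card_image_le.trans ?_
        rw [card_product, card_univ, Fintype.card_fin]
        have := (card_filter_le (lab i) (fun u => u ≤ i)).trans (h1 i h.2)
        omega
      · simp [tz]
  unfold tms
  split_ifs with h h0 h1
  · exact hF _
  · exact hF _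
  · refine Fin.cases ?_ (fun i => ?_) a
    · simp only [rowV, Fin.cases_zero, topn]
      refine card_image_le.trans ?_
      rw [card_univ, Fintype.card_fin]
      omega
    · simp [rowV, Fin.cases_succ, tz]
  · exact hF _

/-- Opening the gates of a set whose complement splits into small pieces. -/
theorem protocol_of_pieces {N : ℕ} (hN : 0 < N) (own : Fin n → Fin N) (S : Finset (Fin s))
    (lab : Fin s → Finset (Fin s)) (L : ℕ) (hL : 1 ≤ L)
    (h1 : ∀ a, a ∉ S → a ∈ lab a ∧ (lab a).card ≤ L)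
    (h2 : ∀ a, a ∉ S → ∀ b, b ∉ S → C.Adj a b → lab a = lab b) :
    ∃ P : Protocol N n m own, P.Correct C.eval ∧ P.Secure C.eval ∧
      P.comm = n + N * (3 * S.card + m) ∧
      P.StorageLe (n + (3 * S.card + m) * ((s + 1) * 2 ^ (2 * L) + 1)) := by
  refine ⟨(C.prog S lab).prot own hN, ?_, ?_, (C.prog S lab).comm_eq own hN,
    (C.prog S lab).storage_le own hN (2 * L) (C.card_tms S lab L hL (fun a ha => (h1 a ha).2))⟩
  · have := (C.prog S lab).correct own hN
    rwa [C.prog_out S lab (fun a ha => (h1 a ha).1) h2] at this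
  · have := (C.prog S lab).secure own hN
    rwa [C.prog_out S lab (fun a ha => (h1 a ha).1) h2] at this

/-- A correct and secure protocol with given communication and storage. -/
def Prot (N : ℕ) (own : Fin n → Fin N) (g : ℝ) : Prop :=
  ∃ P : Protocol N n m own, P.Correct C.eval ∧ P.Secure C.eval ∧
    (P.comm : ℝ) ≤ n + N * (m + g) ∧ P.StorageLe (n + 3 * (s + m) * (s + 1) ^ 2)

theorem Prot.mono {N : ℕ} {own : Fin n → Fin N} {g g' : ℝ} (h : C.Prot N own g) (hg : g ≤ g') :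
    C.Prot N own g' := by
  obtain ⟨P, h1, h2, h3, h4⟩ := h
  refine ⟨P, h1, h2, h3.trans ?_, h4⟩
  have : (0 : ℝ) ≤ N := Nat.cast_nonneg _
  nlinarith

theorem storage_aux (c L : ℕ) (hc : c ≤ s) (h : 2 ^ (2 * L) ≤ s) :
    n + (3 * c + m) * ((s + 1) * 2 ^ (2 * L) + 1) ≤ n + 3 * (s + m) * (s + 1) ^ 2 := by
  have h1 : (s + 1) * 2 ^ (2 * L) + 1 ≤ (s + 1) ^ 2 := by
    have := Nat.mul_le_mul_left (s + 1) h
    nlinarith
  have h2 : 3 * c + m ≤ 3 * (s + m) := by omega
  exact Nat.add_le_add_left (Nat.mul_le_mul h2 h1) _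

theorem prot_of_phi {N : ℕ} (hN : 0 < N) (own : Fin n → Fin N) (hs : 1 ≤ s)
    (L : ℕ) (hL : 1 ≤ L) (hLs : 2 * L ≤ Nat.log 2 s) (σ φ : ℝ → ℝ)
    (hφ : ∀ a b, 0 ≤ a → a ≤ b → φ a ≤ φ b) (h0 : ∀ a, 0 ≤ φ a)
    (hσ : ∀ k : ℕ, L < k → k * φ (2 * k / 3) + σ k ≤ k * φ k)
    (hsep : C.HasSeparators σ) : C.Prot N own (3 * (s * φ s)) := by
  obtain ⟨S, _, lab, a1, a2, a3⟩ := exists_pieces' C.Adj (fun a b h => Or.symm h) L hL σ φ hφ h0
    hσ hsep univ
  obtain ⟨P, h1, h2, h3, h4⟩ := C.protocol_of_pieces hN own S lab L hL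
    (fun a ha => a1 a (mem_univ _) ha) (fun a ha b hb => a2 a (mem_univ _) ha b (mem_univ _) hb)
  refine ⟨P, h1, h2, ?_, h4.mono (storage_aux _ _ ?_ ?_)⟩
  · rw [h3]
    push_cast
    simp only [card_univ, Fintype.card_fin] at a3
    have : (0 : ℝ) ≤ N := Nat.cast_nonneg _
    nlinarith
  · simpa using card_le_univ S
  · exact (Nat.pow_le_pow_right (by norm_num) hLs).trans (Nat.pow_log_le_self 2 (by omega))

theorem prot_univ {N : ℕ} (hN : 0 < N) (own : Fin n → Fin N) (hs : 4 ≤ s) :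
    C.Prot N own (3 * s) := by
  obtain ⟨P, h1, h2, h3, h4⟩ := C.protocol_of_pieces hN own univ (fun _ => ∅) 1 le_rfl
    (fun a ha => absurd (mem_univ a) ha) (fun a ha => absurd (mem_univ a) ha)
  refine ⟨P, h1, h2, ?_, h4.mono (storage_aux _ _ ?_ ?_)⟩
  · rw [h3]
    push_cast
    simp only [card_univ, Fintype.card_fin]
    linarith
  · simp
  · norm_num; omega

end XorCircuit

end Pool.Agent.Work.MP_2ceb02_lc
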