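import Pool.Agent.Work.MP_2ceb02_lc.Xor.Cone

/-!
# The program of a circuit with free exclusive or gates and a set of opened gates
-/

namespace Pool.Agent.Work.MP_2ceb02_lc

open Finset

namespace XorCircuit

variable {n m s : ℕ} (C : XorCircuit n m s)

open Classical in
/-- The terms of the exclusive or of the wires in `F`. -/
noncomputable def rowF (S : Finset (Fin s)) (lab : Fin s → Finset (Fin s)) (F : Finset ℕ) :
    Fin (s + 1) → Tm (Option (Fin s × Fin 2)) :=
  Fin.cases (tl n S F) (fun i => if n + (i : ℕ) ∈ F ∧ i ∉ S then C.tg S lab i else tz s)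

/-- The terms of the value of an opened gate. -/
def rowV (i : Fin s) (k : ℕ) : Fin (s + 1) → Tm (Option (Fin s × Fin 2)) :=
  Fin.cases (C.topn n i k) (fun _ => tz s)

/-- The terms of a wire of the program. -/
noncomputable def tms (S : Finset (Fin s)) (lab : Fin s → Finset (Fin s))
    (v : Fin (3 * S.card + m)) : Fin (s + 1) → Tm (Option (Fin s × Fin 2)) :=
  if h : (v : ℕ) / 3 < S.card then
    if (v : ℕ) % 3 = 0 then C.rowF S lab (nat (C.form (el S ⟨v / 3, h⟩) 0))
    else if (v : ℕ) % 3 = 1 then C.rowF S lab (nat (C.form (el S ⟨v / 3, h⟩) 1))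
    else C.rowV (el S ⟨v / 3, h⟩) (v / 3)
  else C.rowF S lab (nat (C.out ⟨v - 3 * S.card, by omega⟩))

/-- All wires used by a term are smaller than `b`. -/
def Bd {ι : Type} (T : Tm ι) (b : ℕ) : Prop := ∀ i, ∀ w ∈ T.form i, w < b

theorem bd_mono {ι : Type} {T : Tm ι} {b b' : ℕ} (h : Bd T b) (hb : b ≤ b') : Bd T b' :=
  fun i w hw => (h i w hw).trans_le hb

theorem bd_tz (b : ℕ) : Bd (tz s) b := fun _ w hw => absurd hw (notMem_empty w)

theorem bd_tl (S : Finset (Fin s)) (F : Finset ℕ) (t k : ℕ) (hF : ∀ w ∈ F, w < n + t)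
    (hk : ∀ j (hj : j ∈ S), (j : ℕ) < t → (rk S j hj : ℕ) < k) : Bd (tl n S F) (n + 3 * k) :=
  fun _ w hw => outer_lt S F t k hF hk w hw

theorem bd_tg (S : Finset (Fin s)) (lab : Fin s → Finset (Fin s)) (i : Fin s) (t k : ℕ)
    (hi : (i : ℕ) < t) (hk : ∀ j (hj : j ∈ S), (j : ℕ) < t → (rk S j hj : ℕ) < k) :
    Bd (C.tg S lab i) (n + 3 * k) := by
  classical
  rintro ⟨o, ho⟩ w hw
  unfold tg at ho hw
  simp only [mem_image, mem_product, mem_filter, mem_univ, and_true] at ho
  obtain ⟨⟨u, c⟩, hu, rfl⟩ := ho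
  simp only at hw hu
  refine outer_lt S _ t k ?_ hk w hw
  intro w' hw'
  have h1 := mem_nat hw'
  have h2 : (u : ℕ) ≤ i := hu.2
  omega

theorem bd_topn (i : Fin s) (k : ℕ) : Bd (C.topn n i k) (n + 3 * k + 2) := by
  classical
  rintro ⟨o, ho⟩ w hw
  unfold topn at ho hw
  simp only [mem_image, mem_univ, true_and] at ho
  obtain ⟨c, rfl⟩ := ho
  simp only [mem_singleton] at hw
  subst hw
  have := c.2
  omega

theorem bd_rowF (S : Finset (Fin s)) (lab : Fin s → Finset (Fin s)) (F : Finset ℕ) (t k : ℕ)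
    (hF : ∀ w ∈ F, w < n + t)
    (hk : ∀ j (hj : j ∈ S), (j : ℕ) < t → (rk S j hj : ℕ) < k) (a : Fin (s + 1)) :
    Bd (C.rowF S lab F a) (n + 3 * k) := by
  refine Fin.cases ?_ (fun i => ?_) a
  · simp only [rowF, Fin.cases_zero]
    exact bd_tl S F t k hF hk
  · simp only [rowF, Fin.cases_succ]
    split_ifs with h
    · exact C.bd_tg S lab i t k (by have := hF _ h.1; omega) hk
    · exact bd_tz _

theorem bd_rowV (i : Fin s) (k : ℕ) (a : Fin (s + 1)) : Bd (C.rowV i k a) (n + 3 * k + 2) := by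
  refine Fin.cases ?_ (fun i => ?_) a
  · simp only [rowV, Fin.cases_zero]
    exact C.bd_topn i k
  · simp only [rowV, Fin.cases_succ]
    exact bd_tz _

theorem rk_el_lt (S : Finset (Fin s)) (k : Fin S.card) (j : Fin s) (hj : j ∈ S)
    (h : (j : ℕ) < (el S k : Fin s)) : (rk S j hj : ℕ) < k := rk_lt S j hj k h

theorem bd_tms (S : Finset (Fin s)) (lab : Fin s → Finset (Fin s)) (v : Fin (3 * S.card + m))
    (a : Fin (s + 1)) : Bd (C.tms S lab v a) (n + v) ∧ Bd (C.tms S lab v a) (n + 3 * S.card) := by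
  unfold tms
  have hdm : 3 * ((v : ℕ) / 3) + (v : ℕ) % 3 = v := Nat.div_add_mod _ _
  have hm : (v : ℕ) % 3 < 3 := Nat.mod_lt _ (by norm_num)
  split_ifs with h h0 h1
  · have := C.bd_rowF S lab (nat (C.form (el S ⟨v / 3, h⟩) 0)) (el S ⟨v / 3, h⟩ : Fin s) (v / 3)
      (fun w hw => mem_nat hw) (fun j hj hlt => rk_el_lt S ⟨v / 3, h⟩ j hj hlt) a
    exact ⟨bd_mono this (by omega), bd_mono this (by omega)⟩
  · have := C.bd_rowF S lab (nat (C.form (el S ⟨v / 3, h⟩) 1)) (el S ⟨v / 3, h⟩ : Fin s) (v / 3)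
      (fun w hw => mem_nat hw) (fun j hj hlt => rk_el_lt S ⟨v / 3, h⟩ j hj hlt) a
    exact ⟨bd_mono this (by omega), bd_mono this (by omega)⟩
  · have := C.bd_rowV (el S ⟨v / 3, h⟩) (v / 3) a
    exact ⟨bd_mono this (by omega), bd_mono this (by omega)⟩
  · have := C.bd_rowF S lab (nat (C.out ⟨v - 3 * S.card, by omega⟩)) s S.card
      (fun w hw => mem_nat hw) (fun j hj _ => (rk S j hj).2) a
    exact ⟨bd_mono this (by omega), this⟩

/-- The program. -/
noncomputable def prog (S : Finset (Fin s)) (lab : Fin s → Finset (Fin s)) :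
    JuntaProg n m (3 * S.card) (s + 1) (Option (Fin s × Fin 2)) where
  tm := C.tms S lab
  form_lt := fun v a i w hw => ⟨(C.bd_tms S lab v a).1 i w hw, (C.bd_tms S lab v a).2 i w hw⟩

section

variable (S : Finset (Fin s)) (lab : Fin s → Finset (Fin s))
    (h1 : ∀ a, a ∉ S → a ∈ lab a)
    (h2 : ∀ a, a ∉ S → ∀ b, b ∉ S → C.Adj a b → lab a = lab b)
    (x : Fin n → ZMod 2) (Y : ℕ → ZMod 2)

include h1 h2 in
theorem sum_rowF (F : Finset ℕ) (t : ℕ) (hts : t ≤ s) (hF : ∀ w ∈ F, w < n + t)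
    (hY : ∀ w, Opn n S w → w < n + t → Y (idx n S w) = C.wire x w) :
    ∑ a, (C.rowF S lab F a).val Y = ∑ w ∈ F, C.wire x w := by
  classical
  rw [Fin.sum_univ_succ]
  have e1 : (C.rowF S lab F 0).val Y = ∑ w ∈ F.filter (fun w => Opn n S w), C.wire x w := by
    simp only [rowF, Fin.cases_zero]
    rw [val_tl]
    refine Finset.sum_congr rfl fun w hw => ?_
    rw [mem_filter] at hw
    exact hY w hw.2 (hF w hw.1)
  have e2 : ∀ i : Fin s, (C.rowF S lab F i.succ).val Y =
      if n + (i : ℕ) ∈ F ∧ i ∉ S then C.wire x (n + i) else 0 := by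
    intro i
    simp only [rowF, Fin.cases_succ]
    split_ifs with h
    · have hi := hF _ h.1
      exact C.val_tg S lab h1 h2 i h.2 x Y (fun w hw hwi => hY w hw (by omega))
    · exact val_tz Y
  rw [e1, Finset.sum_congr rfl (fun i _ => e2 i), ← Finset.sum_filter,
    ← Finset.sum_filter_add_sum_filter_not F (fun w => Opn n S w) (fun w => C.wire x w)]
  congr 1
  refine Finset.sum_bij (fun (i : Fin s) _ => n + (i : ℕ)) ?_ ?_ ?_ ?_
  · intro i hi
    rw [mem_filter] at hi ⊢
    refine ⟨hi.2.1, ?_⟩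
    rintro (h | ⟨j, hj, h⟩)
    · omega
    · have : i = j := Fin.ext (by omega)
      exact hi.2.2 (this ▸ hj)
  · intro i _ j _ h
    exact Fin.ext (by omega)
  · intro w hw
    rw [mem_filter] at hw
    have hw1 := hF w hw.1
    have hw2 : ¬ w < n := fun h => hw.2 (Or.inl h)
    refine ⟨⟨w - n, by omega⟩, ?_, by simp only; omega⟩
    rw [mem_filter]
    refine ⟨mem_univ _, ?_, ?_⟩
    · have : n + (w - n) = w := by omega
      simp only [this]
      exact hw.1
    · intro h
      exact hw.2 (Or.inr ⟨_, h, by simp only; omega⟩)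
  · intro i _
    rfl

theorem sum_rowV (i : Fin s) (k : ℕ) :
    ∑ a, (C.rowV i k a).val Y = C.op i (fun c => Y (n + 3 * k + c)) := by
  rw [Fin.sum_univ_succ]
  have e2 : ∀ j : Fin s, (C.rowV i k j.succ).val Y = 0 := by
    intro j
    simp only [rowV, Fin.cases_succ]
    exact val_tz Y
  rw [Finset.sum_congr rfl (fun j _ => e2 j)]
  simp only [rowV, Fin.cases_zero, Finset.sum_const_zero, add_zero]
  exact C.val_topn i k Y

/-- What a wire of the program computes. -/
noncomputable def sem (v : Fin (3 * S.card + m)) : ZMod 2 :=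
  if h : (v : ℕ) / 3 < S.card then
    if (v : ℕ) % 3 = 0 then ∑ w ∈ C.form (el S ⟨v / 3, h⟩) 0, C.wire x w
    else if (v : ℕ) % 3 = 1 then ∑ w ∈ C.form (el S ⟨v / 3, h⟩) 1, C.wire x w
    else C.wire x (n + (el S ⟨v / 3, h⟩ : Fin s))
  else ∑ w ∈ C.out ⟨v - 3 * S.card, by omega⟩, C.wire x w

include h1 h2 in
theorem prog_W (v : Fin (3 * S.card + m)) :
    (C.prog S lab).W x (n + v) = C.sem S x v := by
  obtain ⟨v, hv⟩ := v
  induction v using Nat.strong_induction_on with
  | _ v ih =>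
    have hW := (C.prog S lab).W_eq x ⟨v, hv⟩
    simp only at hW
    have hY : ∀ t k : ℕ, 3 * k ≤ v → k ≤ S.card →
        (∀ j (hj : j ∈ S), (j : ℕ) < t → (rk S j hj : ℕ) < k) →
        ∀ w, Opn n S w → w < n + t → (C.prog S lab).W x (idx n S w) = C.wire x w := by
      intro t k hk hkS hrk w hw hwt
      rcases hw with hw | ⟨j, hj, rfl⟩
      · rw [idx_input S w hw]
        have := (C.prog S lab).W_input x ⟨w, hw⟩
        simp only at this
        rw [this, C.wire_input x w hw]
      · rw [idx_gate S j hj]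
        have h3 := hrk j hj (by omega)
        have h4 : 3 * (rk S j hj : ℕ) + 2 < v := by omega
        have h5 := ih _ h4 (by omega)
        have e : n + 3 * (rk S j hj : ℕ) + 2 = n + (3 * (rk S j hj : ℕ) + 2) := by omega
        rw [e, h5]
        unfold sem
        have h6 : (3 * (rk S j hj : ℕ) + 2) / 3 = rk S j hj := by omega
        have h7 : (3 * (rk S j hj : ℕ) + 2) % 3 = 2 := by omega
        have h8 : (3 * (rk S j hj : ℕ) + 2) / 3 < S.card := by rw [h6]; exact (rk S j hj).2
        have h9 : (⟨(3 * (rk S j hj : ℕ) + 2) / 3, h8⟩ : Fin S.card) = rk S j hj := Fin.ext h6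
        simp only [dif_pos h8, h7, h9, el_rk]
        rw [if_neg (by norm_num), if_neg (by norm_num)]
    rw [hW]
    have hdm : 3 * (v / 3) + v % 3 = v := Nat.div_add_mod _ _
    show ∑ a, (C.tms S lab ⟨v, hv⟩ a).val ((C.prog S lab).W x) = _
    unfold tms sem
    by_cases h : v / 3 < S.card
    · have hrk : ∀ j (hj : j ∈ S), (j : ℕ) < (el S ⟨v / 3, h⟩ : Fin s) →
          (rk S j hj : ℕ) < v / 3 := fun j hj hlt => rk_el_lt S ⟨v / 3, h⟩ j hj hlt
      simp only [dif_pos h]
      by_cases h30 : v % 3 = 0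
      · simp only [if_pos h30]
        rw [C.sum_rowF S lab h1 h2 x _ _ _ (le_of_lt (el S ⟨v / 3, h⟩).2)
          (fun w hw => mem_nat hw) (hY _ (v / 3) (by omega) h.le hrk)]
        exact sum_nat _ _
      · simp only [if_neg h30]
        by_cases h31 : v % 3 = 1
        · simp only [if_pos h31]
          rw [C.sum_rowF S lab h1 h2 x _ _ _ (le_of_lt (el S ⟨v / 3, h⟩).2)
            (fun w hw => mem_nat hw) (hY _ (v / 3) (by omega) h.le hrk)]
          exact sum_nat _ _
        · simp only [if_neg h31]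
          rw [C.sum_rowV, C.wire_gate]
          congr 1
          funext c
          have hc := c.2
          have hlt : 3 * (v / 3) + (c : ℕ) < v := by omega
          have h5 := ih _ hlt (by omega)
          rw [Nat.add_assoc, h5]
          unfold sem
          have h6 : (3 * (v / 3) + (c : ℕ)) / 3 = v / 3 := by omega
          have h7 : (3 * (v / 3) + (c : ℕ)) % 3 = c := by omega
          have h8 : (3 * (v / 3) + (c : ℕ)) / 3 < S.card := by rw [h6]; exact h
          simp only [dif_pos h8, h7]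
          have h9 : (⟨(3 * (v / 3) + (c : ℕ)) / 3, h8⟩ : Fin S.card) = ⟨v / 3, h⟩ :=
            Fin.ext h6
          rw [h9]
          rcases Fin.exists_fin_two.1 ⟨c, rfl⟩ with hc | hc
          · subst hc
            simp
          · subst hc
            simp
    · simp only [dif_neg h]
      rw [C.sum_rowF S lab h1 h2 x _ _ s le_rfl (fun w hw => mem_nat hw)
        (hY s S.card (by omega) le_rfl (fun j hj _ => (rk S j hj).2))]
      exact sum_nat _ _

end

end XorCircuit

end Pool.Agent.Work.MP_2ceb02_lc
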